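import Pool.Agent.PV3.Stmts

/-!
# Squad PV3, module GEN: a generic direction
-/

set_option autoImplicit false

open MeasureTheory Metric Set Filter Topology Pointwise

namespace PV3.H51

open PV PV3

theorem gen : GENStmt := by
  intro n hn V ν hV hν
  classical
  have hν0 : ν ≠ 0 := by
    rintro rfl
    rw [norm_zero] at hν
    exact one_ne_zero hν.symm
  let W : Submodule ℝ (E n) := (ℝ ∙ ν)ᗮ
  let φ : E n → (W →ₗ[ℝ] ℝ) := fun w => (innerₛₗ ℝ w).comp W.subtype
  have hφ : ∀ (w : E n) (x : W), φ w x = inner ℝ w (x : E n) := fun _ _ => rfl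
  let V' : Finset (E n) := V.filter fun w => w ≠ ν ∧ w ≠ -ν
  let s : Finset (Subspace ℝ W) := insert ⊥ (V'.image fun w => LinearMap.ker (φ w))
  have htop : (⊤ : Subspace ℝ W) ∉ s := by
    intro h
    rw [Finset.mem_insert, Finset.mem_image] at h
    rcases h with h | ⟨w, hw, h⟩
    · have h1 : Module.finrank ℝ (ℝ ∙ ν) + Module.finrank ℝ W = n := by
        have := Submodule.finrank_add_finrank_orthogonal (ℝ ∙ ν)
        rw [finrank_euclideanSpace_fin] at this
        exact this
      have h2 : Module.finrank ℝ (ℝ ∙ ν) = 1 := finrank_span_singleton hν0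
      have h3 : Module.finrank ℝ W = 0 := by
        rw [← finrank_top ℝ W, h]
        exact finrank_bot ℝ W
      omega
    · have hwV : w ∈ V ∧ w ≠ ν ∧ w ≠ -ν := by
        rw [Finset.mem_filter] at hw
        exact hw
      have hmem : w ∈ Wᗮ := by
        rw [Submodule.mem_orthogonal']
        intro x hx
        have hx' : (⟨x, hx⟩ : W) ∈ LinearMap.ker (φ w) := by
          rw [h]
          exact Submodule.mem_top
        rw [LinearMap.mem_ker, hφ] at hx'
        exact hx'
      have hmem2 : w ∈ (ℝ ∙ ν) := by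
        rw [← Submodule.orthogonal_orthogonal (ℝ ∙ ν)]
        exact hmem
      rw [Submodule.mem_span_singleton] at hmem2
      obtain ⟨a, ha⟩ := hmem2
      have hn1 : ‖w‖ = 1 := hV w hwV.1
      rw [← ha, norm_smul, hν, mul_one, Real.norm_eq_abs] at hn1
      rcases (abs_eq zero_le_one).1 hn1 with h1 | h1
      · apply hwV.2.1
        rw [← ha, h1, one_smul]
      · apply hwV.2.2
        rw [← ha, h1, neg_smul, one_smul]
  obtain ⟨x, hx⟩ := (Set.ne_univ_iff_exists_notMem _).1
    (Subspace.biUnion_ne_univ_of_top_notMem htop)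
  have hx' : ∀ p ∈ s, x ∉ p := by
    intro p hp hxp
    apply hx
    rw [Set.mem_iUnion₂]
    exact ⟨p, hp, hxp⟩
  have hx0 : (x : E n) ≠ 0 := by
    intro h0
    apply hx' ⊥ (Finset.mem_insert_self _ _)
    rw [Submodule.mem_bot]
    exact Subtype.ext h0
  have hxn : ‖(x : E n)‖ ≠ 0 := norm_ne_zero_iff.2 hx0
  refine ⟨‖(x : E n)‖⁻¹ • (x : E n), ?_, ?_, ?_⟩
  · rw [norm_smul, norm_inv, norm_norm, inv_mul_cancel₀ hxn]
  · rw [inner_smul_left, Submodule.mem_orthogonal_singleton_iff_inner_left.1 x.2, mul_zero]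
  · intro w hw h1 h2
    have hw' : w ∈ V' := by
      rw [Finset.mem_filter]
      exact ⟨hw, h1, h2⟩
    have h3 : φ w x ≠ 0 := by
      intro h0
      exact hx' _ (Finset.mem_insert_of_mem (Finset.mem_image_of_mem _ hw'))
        (LinearMap.mem_ker.2 h0)
    rw [hφ] at h3
    rw [inner_smul_left, real_inner_comm]
    exact mul_ne_zero (by simpa using hxn) h3

end PV3.H51
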