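import Pool.Agent.PV3.Stmts

/-!
# Squad PV3, module REG: touching balls
-/

set_option autoImplicit false

open MeasureTheory Metric Set Filter Topology Pointwise

namespace PV3.H51

open PV PV3

theorem reg : REGStmt := by
  intro n _ L hL x hx
  have hcl : IsClosed L := hL.cpt.isClosed
  have hne : (Lᶜ : Set (E n)).Nonempty := ⟨x, hx⟩
  obtain ⟨y₀, hy₀⟩ := hL.full
  obtain ⟨ε, hε, hball⟩ := Metric.isOpen_iff.1 isOpen_interior y₀ hy₀
  set ρ₀ : ℝ := ε / 2 with hρ₀
  have hρ₀pos : 0 < ρ₀ := by positivity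
  have hcb : closedBall y₀ ρ₀ ⊆ L := by
    intro z hz
    apply interior_subset
    apply hball
    rw [mem_ball]
    rw [mem_closedBall] at hz
    linarith
  -- the path
  let f : ℝ → E n := fun t => y₀ + t • (x - y₀)
  have hf : Continuous f := by fun_prop
  have hf0 : f 0 = y₀ := by simp [f]
  have hf1 : f 1 = x := by simp [f]
  let h : ℝ → ℝ := fun t => infDist (f t) Lᶜ - (1 - t) * (ρ₀ / 2)
  have hh : Continuous h := by
    have h1 : Continuous fun t => infDist (f t) Lᶜ := (continuous_infDist_pt _).comp hf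
    have h2 : Continuous fun t : ℝ => (1 - t) * (ρ₀ / 2) := by fun_prop
    exact h1.sub h2
  have hopen : IsOpen (f ⁻¹' Lᶜ) := hcl.isOpen_compl.preimage hf
  have hmem1 : (1 : ℝ) ∈ f ⁻¹' Lᶜ := by
    show f 1 ∈ Lᶜ
    rw [hf1]
    exact hx
  obtain ⟨δ, hδ, hδb⟩ := Metric.isOpen_iff.1 hopen 1 hmem1
  obtain ⟨t₁, ht₁0, ht₁1, ht₁⟩ : ∃ t₁ : ℝ, 0 ≤ t₁ ∧ t₁ < 1 ∧ f t₁ ∈ Lᶜ := by
    refine ⟨1 - min (δ / 2) 1, ?_, ?_, ?_⟩
    · linarith [min_le_right (δ / 2) 1]
    · have : 0 < min (δ / 2) 1 := lt_min (by linarith) one_pos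
      linarith
    · apply hδb
      rw [mem_ball, Real.dist_eq]
      have h1 : 0 < min (δ / 2) 1 := lt_min (by linarith) one_pos
      have h2 : min (δ / 2) 1 ≤ δ / 2 := min_le_left _ _
      rw [abs_lt]
      constructor <;> linarith
  have hh0 : 0 ≤ h 0 := by
    have h1 : ρ₀ ≤ infDist y₀ Lᶜ := by
      rw [le_infDist hne]
      intro z hz
      by_contra hlt
      push Not at hlt
      apply hz
      apply hcb
      rw [mem_closedBall, dist_comm]
      exact hlt.le
    show 0 ≤ infDist (f 0) Lᶜ - (1 - 0) * (ρ₀ / 2)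
    rw [hf0]
    linarith
  have hh1 : h t₁ ≤ 0 := by
    show infDist (f t₁) Lᶜ - (1 - t₁) * (ρ₀ / 2) ≤ 0
    rw [infDist_zero_of_mem ht₁]
    have : 0 < (1 - t₁) * (ρ₀ / 2) := by
      apply mul_pos <;> linarith
    linarith
  obtain ⟨t, ht, hht⟩ := intermediate_value_Icc' ht₁0 hh.continuousOn ⟨hh1, hh0⟩
  have ht1 : t < 1 := lt_of_le_of_lt ht.2 ht₁1
  have ht0 : 0 ≤ t := ht.1
  set y : E n := f t with hy
  set ρ : ℝ := (1 - t) * (ρ₀ / 2) with hρ
  have hρpos : 0 < ρ := by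
    apply mul_pos <;> linarith
  have hinf : infDist y Lᶜ = ρ := by
    have : infDist (f t) Lᶜ - (1 - t) * (ρ₀ / 2) = 0 := hht
    linarith
  -- the ball
  have hballL : ball y ρ ⊆ L := by
    intro z hz
    by_contra hzL
    have h1 : infDist y Lᶜ ≤ dist y z := infDist_le_dist_of_mem hzL
    rw [mem_ball, dist_comm] at hz
    linarith
  have hcbL : closedBall y ρ ⊆ L := by
    rw [← closure_ball y hρpos.ne']
    exact closure_minimal hballL hcl
  -- the nearest point
  obtain ⟨p, hp, hpd⟩ := (isClosed_closure (s := (Lᶜ : Set (E n)))).exists_infDist_eq_dist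
    hne.closure y
  rw [infDist_closure, hinf] at hpd
  have hpi : p ∉ interior L := by
    intro hpi
    rw [closure_compl] at hp
    exact hp hpi
  obtain ⟨g, hg⟩ := geometric_hahn_banach_open_point hL.cvx.interior isOpen_interior hpi
  have hgL : ∀ z ∈ L, g z ≤ g p := by
    have h1 : closure (interior L) ⊆ {z | g z ≤ g p} := by
      apply closure_minimal
      · intro z hz
        exact (hg z hz).le
      · exact isClosed_le g.continuous continuous_const
    intro z hz
    apply h1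
    rw [hL.cvx.closure_interior_eq_closure_of_nonempty_interior hL.full]
    exact subset_closure hz
  set v : E n := (InnerProductSpace.toDual ℝ (E n)).symm g with hv
  have hvg : ∀ z : E n, inner ℝ z v = g z := by
    intro z
    rw [real_inner_comm, hv, InnerProductSpace.toDual_symm_apply]
  have hv0 : v ≠ 0 := by
    intro h0
    have h1 := hg y₀ hy₀
    rw [← hvg, ← hvg, h0, inner_zero_right, inner_zero_right] at h1
    exact lt_irrefl _ h1
  have hvn : 0 < ‖v‖ := norm_pos_iff.2 hv0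
  set ν : E n := ‖v‖⁻¹ • v with hνdef
  have hν : ‖ν‖ = 1 := by
    rw [hνdef, norm_smul, norm_inv, norm_norm, inv_mul_cancel₀ hvn.ne']
  have hin : ∀ z : E n, inner ℝ z ν = ‖v‖⁻¹ * g z := by
    intro z
    rw [hνdef, inner_smul_right, hvg]
  have hpy : inner ℝ p ν ≤ inner ℝ y ν + ρ := by
    have h1 : inner ℝ (p - y) ν ≤ ‖p - y‖ * ‖ν‖ := real_inner_le_norm _ _
    rw [hν, mul_one, inner_sub_left, ← dist_eq_norm, dist_comm, ← hpd] at h1
    linarith
  have hsupp : ∀ z ∈ L, inner ℝ z ν ≤ inner ℝ y ν + ρ := by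
    intro z hz
    refine le_trans ?_ hpy
    rw [hin, hin]
    exact mul_le_mul_of_nonneg_left (hgL z hz) (inv_nonneg.2 hvn.le)
  refine ⟨y, ν, ρ, hρpos, hν, hcbL, hsupp, ?_⟩
  -- the point `y₀ + ρ₀ ν`
  have h1 : inner ℝ (y₀ + ρ₀ • ν) ν ≤ inner ℝ y ν + ρ := by
    apply hsupp
    apply hcb
    rw [mem_closedBall, dist_eq_norm, add_sub_cancel_left, norm_smul, hν, mul_one,
      Real.norm_eq_abs, abs_of_pos hρ₀pos]
  have h2 : inner ℝ (y₀ + ρ₀ • ν) ν = inner ℝ y₀ ν + ρ₀ := by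
    rw [inner_add_left, inner_smul_left, real_inner_self_eq_norm_sq, hν]
    simp
  have h3 : inner ℝ y ν = inner ℝ y₀ ν + t * (inner ℝ x ν - inner ℝ y₀ ν) := by
    show inner ℝ (y₀ + t • (x - y₀)) ν = _
    rw [inner_add_left, inner_smul_left, inner_sub_left]
    simp
  rw [h2, h3] at h1
  rw [h3]
  set a : ℝ := inner ℝ x ν
  set b : ℝ := inner ℝ y₀ ν
  have hta : ρ₀ - ρ ≤ t * (a - b) := by linarith
  have hρlt : ρ < (1 - t) * ρ₀ := by
    rw [hρ]
    have : 0 < (1 - t) * ρ₀ := mul_pos (by linarith) hρ₀pos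
    linarith
  have htpos : 0 < t := by
    rcases ht0.eq_or_lt with h0 | h0
    · exfalso
      rw [← h0] at hta hρlt
      linarith
    · exact h0
  have hkey : t * ρ < t * ((1 - t) * (a - b)) := by
    have e1 : (1 - t) * (ρ₀ - ρ) ≤ (1 - t) * (t * (a - b)) :=
      mul_le_mul_of_nonneg_left hta (by linarith)
    nlinarith
  have := lt_of_mul_lt_mul_left hkey htpos.le
  nlinarith

end PV3.H51
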